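import Mathlib
import Pool.Agent.H.MP_47eac2_co.A

namespace Pool.Agent.Results.MP_47eac2_co.MaxSum

/-- lengths of strictly increasing chains of flats -/
def chainLengths {V : Type} (G : SimpleGraph V) : Set ℕ :=
  {k | ∃ c : Fin (k + 1) → Set V, StrictMono c ∧
    ∀ i, ∃ W : Set V, c i = {a | ∀ w ∈ W, G.Adj w a}}

/-- height of the lattice of flats -/
noncomputable def crk {V : Type} (G : SimpleGraph V) : ℕ := sSup (chainLengths G)

theorem result (n : ℕ) (hn : 1 ≤ n) :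
    (∀ G : SimpleGraph (Fin n), IsGreatest (chainLengths G) (crk G)) ∧
    IsGreatest {s | ∃ G : SimpleGraph (Fin n), crk G + crk Gᶜ = s}
      (if n ≤ 3 then n + 1 else n + 2) ∧
    IsLeast {e | ∃ G : SimpleGraph (Fin n),
        crk G + crk Gᶜ = (if n ≤ 3 then n + 1 else n + 2) ∧ G.edgeSet.ncard = e}
      (if n ≤ 3 then 0 else 3) := by
  open Pool.Agent.H.MP_47eac2_co in
  haveI : Nonempty (Fin n) := ⟨⟨0, hn⟩⟩
  have hiff : ∀ (G : SimpleGraph (Fin n)) k, k ∈ chainLengths G ↔ ∃ v x, Pat G k v x :=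
    fun G k => chain_iff G k
  have hG : ∀ G : SimpleGraph (Fin n), IsGreatest (chainLengths G) (crk G) := by
    intro G
    have hb : BddAbove (chainLengths G) := ⟨Fintype.card (Fin n), fun k hk => by
      obtain ⟨v, x, h⟩ := (hiff G k).1 hk
      exact h.le_card⟩
    have hne : (chainLengths G).Nonempty := ⟨0, (hiff G 0).2
      ⟨fun _ => ⟨0, hn⟩, fun _ => ⟨0, hn⟩, fun i hi => by omega, fun i j _ hj => by omega⟩⟩
    exact ⟨Nat.sSup_mem hne hb, fun k hk => le_csSup hb hk⟩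
  have hup : ∀ G : SimpleGraph (Fin n), crk G + crk Gᶜ ≤ n + 2 ∧
      (n + 2 ≤ crk G + crk Gᶜ → 3 ≤ crk G ∧ 3 ≤ crk Gᶜ ∧ 3 ≤ G.edgeSet.ncard) := by
    intro G
    obtain ⟨v, x, h⟩ := (hiff G _).1 (hG G).1
    obtain ⟨w, y, h'⟩ := (hiff Gᶜ _).1 (hG Gᶜ).1
    have h1 := upper h h'
    rw [Fintype.card_fin] at h1
    refine ⟨h1, fun hs => ?_⟩
    have h2 := three_le h h' (by rwa [Fintype.card_fin])
    have h3 := three_le h' (by rwa [compl_compl]) (by rw [Fintype.card_fin]; omega)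
    exact ⟨h2, h3, three_edges h h2⟩
  have hle : ∀ G : SimpleGraph (Fin n), crk G + crk Gᶜ ≤ if n ≤ 3 then n + 1 else n + 2 := by
    intro G
    have := hup G
    split_ifs <;> omega
  have hex : ∃ G : SimpleGraph (Fin n), crk G + crk Gᶜ = (if n ≤ 3 then n + 1 else n + 2) ∧
      G.edgeSet.ncard = if n ≤ 3 then 0 else 3 := by
    by_cases h3 : n ≤ 3
    · obtain ⟨m, rfl⟩ : ∃ m, n = m + 1 := ⟨n - 1, by omega⟩
      have h1 := (hG _).2 ((hiff _ _).2 (bot_pat m).1)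
      have h2 := (hG _).2 ((hiff _ _).2 (bot_pat m).2)
      have h4 := hle ⊥
      refine ⟨⊥, ?_, by simp [h3]⟩
      rw [if_pos h3] at h4 ⊢
      omega
    · obtain ⟨m, rfl⟩ : ∃ m, n = m + 4 := ⟨n - 4, by omega⟩
      have h1 := (hG _).2 ((hiff _ _).2 (pathG_pat m))
      have h2 := (hG _).2 ((hiff _ _).2 (pathG_pat' m))
      have h4 := hup (pathG m)
      have h5 := pathG_edges m
      refine ⟨pathG m, ?_, ?_⟩ <;> rw [if_neg h3] <;> omega
  obtain ⟨G, hG1, hG2⟩ := hex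
  refine ⟨hG, ⟨⟨G, hG1⟩, ?_⟩, ⟨G, hG1, hG2⟩, ?_⟩
  · rintro _ ⟨H, rfl⟩
    exact hle H
  · rintro _ ⟨H, hH, rfl⟩
    have := hup H
    split_ifs at hH ⊢ <;> omega

end Pool.Agent.Results.MP_47eac2_co.MaxSum
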